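import Mathlib.LinearAlgebra.AffineSpace.AffineSubspace.Defs
import Mathlib.LinearAlgebra.FiniteDimensional.Defs
import Mathlib.SetTheory.Cardinal.Finite
import Mathlib.Algebra.Group.Subgroup.Basic

/-!
# Symmetric nets: definitions

An incidence structure has a type `V` of points, a type `B` of blocks and an incidence relation
`I : V → B → Prop` (in a net different blocks have different sets of points, so the blocks can be
identified with sets of points).
-/

set_option autoImplicit false

namespace Pool.Agent.K3h60.SN

/-- `(s, r, μ)`-nets: `s ^ 2 * μ` points, all blocks have `s * μ` points, the blocks are partitioned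
into `r` parallel classes (`c b` is the class of the block `b`), each of which is a partition of the
point set, and two blocks of different parallel classes meet in exactly `μ` points. -/
structure IsNet {V B : Type} (I : V → B → Prop) (s r μ : ℕ) : Prop where
  finite_points : Finite V
  finite_blocks : Finite B
  card_points : Nat.card V = s ^ 2 * μ
  card_block : ∀ b, Nat.card {v // I v b} = s * μ
  parallel : ∃ c : B → Fin r, (∀ (i : Fin r) (v : V), ∃! b, c b = i ∧ I v b) ∧
    ∀ b b', c b ≠ c b' → Nat.card {v // I v b ∧ I v b'} = μ

/-- Symmetric `(s, μ)`-nets: `(s, s * μ, μ)`-nets whose dual is again an `(s, s * μ, μ)`-net. -/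
def IsSymmetricNet {V B : Type} (I : V → B → Prop) (s μ : ℕ) : Prop :=
  IsNet I s (s * μ) μ ∧ IsNet (fun b v => I v b) s (s * μ) μ

/-- Two distinct points are joined if some block contains both. -/
def Joined {V B : Type} (I : V → B → Prop) (x y : V) : Prop := x ≠ y ∧ ∃ b, I x b ∧ I y b

/-- Two distinct points are non-joined if no block contains both. -/
def NonJoined {V B : Type} (I : V → B → Prop) (x y : V) : Prop := x ≠ y ∧ ¬ ∃ b, I x b ∧ I y b

/-- `g` maps (the point sets of) blocks to blocks. -/
def MapsBlocks {V B : Type} (I : V → B → Prop) (g : Equiv.Perm V) : Prop :=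
  ∀ b, ∃ b', ∀ v, I v b ↔ I (g v) b'

/-- The hyperplanes of the affine space `K ^ d` that are not parallel to the line `L`, that is,
contain no translate of `L`. -/
def NonParallelHyperplane {K : Type} [Field K] {d : ℕ} (L H : AffineSubspace K (Fin d → K)) : Prop :=
  (H : Set (Fin d → K)).Nonempty ∧ Module.finrank K H.direction + 1 = d ∧
    ¬ L.direction ≤ H.direction

/-- Classical symmetric nets: those isomorphic to the points of an affine space `K ^ d`, `K` a finite
field and `d ≥ 2`, with the hyperplanes that are not parallel to a fixed line `L`. -/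
def IsClassical {V B : Type} (I : V → B → Prop) : Prop :=
  ∃ (K : Type) (_ : Field K) (_ : Finite K) (d : ℕ) (L : AffineSubspace K (Fin d → K))
    (e : V ≃ (Fin d → K)), 2 ≤ d ∧ Module.finrank K L.direction = 1 ∧
    (∀ b, ∃ H, NonParallelHyperplane L H ∧ ∀ v, I v b ↔ e v ∈ H) ∧
    ∀ H, NonParallelHyperplane L H → ∃ b, ∀ v, I v b ↔ e v ∈ H

end Pool.Agent.K3h60.SN
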