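import Mathlib

/-!
# A Frobenius-equivariant quotient of a finite field

For a prime `p` and `w ≥ 2` let `F` be the field with `p ^ N` elements, `N = p ^ w - 1`. There are
an additive map `π : F → F` commuting with `z ↦ z ^ p` and an element `u` such that the image
of `π` consists of `0` and the `N` distinct elements `u ^ (p ^ i)`.
-/

set_option autoImplicit false

open Polynomial

namespace Pool.Agent.K3h60.SN

variable (p : ℕ) [hp : Fact p.Prime]

/-- the Frobenius map as a linear map -/
noncomputable def sg (F : Type) [Field F] [Algebra (ZMod p) F] : F →ₗ[ZMod p] F :=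
  (FiniteField.frobeniusAlgHom (ZMod p) F).toLinearMap

lemma sg_apply (F : Type) [Field F] [Algebra (ZMod p) F] (z : F) : sg p F z = z ^ p := by
  simp [sg]

lemma sg_pow (F : Type) [Field F] [Algebra (ZMod p) F] (i : ℕ) (z : F) :
    ((sg p F) ^ i) z = z ^ (p ^ i) := by
  induction i with
  | zero => simp
  | succ i ih => rw [pow_succ', Module.End.mul_apply, ih, sg_apply, ← pow_mul, ← pow_succ]

lemma aeval_sg (F : Type) [Field F] [Algebra (ZMod p) F] (r : (ZMod p)[X]) (z : F) :
    (aeval (sg p F) r) z = r.sum fun i c => algebraMap (ZMod p) F c * z ^ (p ^ i) := by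
  rw [aeval_eq_sum_range, LinearMap.sum_apply, Polynomial.sum_over_range]
  · refine Finset.sum_congr rfl fun i _ => ?_
    rw [LinearMap.smul_apply, sg_pow, Algebra.smul_def]
  · intro n; simp

/-- a nonzero polynomial of small degree in the Frobenius map has few zeros -/
lemma card_zeros (F : Type) [Field F] [Finite F] [Algebra (ZMod p) F] (r : (ZMod p)[X]) (hr : r ≠ 0) :
    Nat.card {z : F // (aeval (sg p F) r) z = 0} ≤ p ^ r.natDegree := by
  classical
  have := Fintype.ofFinite F
  set R : F[X] := r.sum fun i c => C (algebraMap (ZMod p) F c) * X ^ (p ^ i) with hR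
  have hev : ∀ z : F, (aeval (sg p F) r) z = R.eval z := by
    intro z
    rw [aeval_sg, hR, Polynomial.sum_def, Polynomial.sum_def, Polynomial.eval_finsetSum]
    simp
  have hp1 : 1 < p := hp.out.one_lt
  have hinj : Function.Injective (fun i : ℕ => p ^ i) := Nat.pow_right_injective hp1
  have hcoeff : R.coeff (p ^ r.natDegree) = algebraMap (ZMod p) F r.leadingCoeff := by
    rw [hR, Polynomial.sum_def, Polynomial.finsetSum_coeff]
    rw [Finset.sum_eq_single r.natDegree]
    · rw [coeff_C_mul, coeff_X_pow_self, mul_one]; rfl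
    · intro i _ hi
      rw [coeff_C_mul, coeff_X_pow, if_neg (fun h => hi (hinj h).symm), mul_zero]
    · intro h
      exact absurd (natDegree_mem_support_of_nonzero hr) h
  have hR0 : R ≠ 0 := by
    intro h0
    rw [h0, coeff_zero] at hcoeff
    have : algebraMap (ZMod p) F r.leadingCoeff ≠ 0 := by
      rw [map_ne_zero_iff _ (algebraMap (ZMod p) F).injective]
      exact leadingCoeff_ne_zero.2 hr
    exact this hcoeff.symm
  have hdeg : R.natDegree ≤ p ^ r.natDegree := by
    rw [hR, Polynomial.sum_def]
    apply natDegree_sum_le_of_forall_le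
    intro i hi
    refine (natDegree_C_mul_X_pow_le _ _).trans ?_
    exact Nat.pow_le_pow_right hp.out.pos (le_natDegree_of_mem_supp i hi)
  calc Nat.card {z : F // (aeval (sg p F) r) z = 0}
      ≤ R.roots.toFinset.card := by
        rw [Nat.card_eq_fintype_card, Fintype.card_subtype]
        apply Finset.card_le_card
        intro z hz
        rw [Finset.mem_filter] at hz
        rw [Multiset.mem_toFinset, mem_roots hR0, IsRoot, ← hev]
        exact hz.2
    _ ≤ Multiset.card R.roots := Multiset.toFinset_card_le _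
    _ ≤ R.natDegree := card_roots' R
    _ ≤ p ^ r.natDegree := hdeg

theorem exists_pi (w : ℕ) (hw : 2 ≤ w) (F : Type) [Field F] [Finite F] [Algebra (ZMod p) F]
    (hF : Nat.card F = p ^ (p ^ w - 1)) :
    ∃ (π : F →ₗ[ZMod p] F) (u : F), u ≠ 0 ∧ (∀ z, π (z ^ p) = (π z) ^ p) ∧
      (∀ i, ∃ z, π z = u ^ (p ^ i)) ∧
      (∀ z, π z = 0 ∨ ∃ i < p ^ w - 1, π z = u ^ (p ^ i)) ∧
      (∀ i, 0 < i → i < p ^ w - 1 → u ^ (p ^ i) ≠ u) ∧
      Nat.card (LinearMap.range π) = p ^ w := by
  classical
  have := Fintype.ofFinite F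
  set N := p ^ w - 1 with hN
  have hp1 : 1 < p := hp.out.one_lt
  have hpw : 1 < p ^ w := Nat.one_lt_pow (by omega) hp1
  -- the generator
  let L := GaloisField p w
  have hL : Nat.card L = p ^ w := GaloisField.card p w (by omega)
  have hLfin : Finite L := Nat.finite_of_card_ne_zero (by rw [hL]; positivity)
  have := Fintype.ofFinite L
  obtain ⟨g, hg⟩ := IsCyclic.exists_generator (α := Lˣ)
  have hog : orderOf g = N := by
    rw [orderOf_eq_card_of_forall_mem_zpowers hg, Nat.card_units, hL]
  set f := minpoly (ZMod p) (g : L) with hf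
  have hint : IsIntegral (ZMod p) (g : L) := Algebra.IsIntegral.isIntegral _
  have hf0 : f ≠ 0 := minpoly.ne_zero hint
  have hfdeg : 0 < f.natDegree := minpoly.natDegree_pos hint
  have hfdeg2 : f.natDegree ≤ w := by
    have h1 := minpoly.natDegree_le (A := ZMod p) (g : L)
    rwa [GaloisField.finrank p (by omega : w ≠ 0)] at h1
  have hirr : Irreducible f := minpoly.irreducible hint
  -- X ^ N - 1 = f * h
  have hdvd : f ∣ X ^ N - 1 := by
    apply minpoly.dvd
    have h1 : (g : L) ^ N = 1 := by
      rw [← Units.val_pow_eq_pow_val, ← hog, pow_orderOf_eq_one, Units.val_one]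
    simp [h1]
  obtain ⟨h, hh⟩ := hdvd
  have hXN : (X ^ N - 1 : (ZMod p)[X]) ≠ 0 := by
    have h1 : (X ^ N - 1 : (ZMod p)[X]) = X ^ N - C 1 := by simp
    rw [h1]
    exact X_pow_sub_C_ne_zero (by omega) 1
  have hh0 : h ≠ 0 := by
    rintro rfl
    rw [mul_zero] at hh
    exact hXN hh
  have hhdeg : h.natDegree < N := by
    have h1 := natDegree_mul hf0 hh0
    rw [← hh] at h1
    have h2 : (X ^ N - 1 : (ZMod p)[X]).natDegree = N := by
      have h3 : (X ^ N - 1 : (ZMod p)[X]) = X ^ N - C 1 := by simp
      rw [h3, natDegree_X_pow_sub_C]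
    omega
  have hsgN : ∀ z : F, ((sg p F) ^ N) z = z := by
    intro z
    rw [sg_pow, ← hF, Nat.card_eq_fintype_card, FiniteField.pow_card]
  have hkill : ∀ z : F, (aeval (sg p F) f) ((aeval (sg p F) h) z) = 0 := by
    intro z
    rw [← Module.End.mul_apply, ← map_mul, ← hh]
    simp [hsgN z]
  -- the element u
  obtain ⟨v, hv⟩ : ∃ v : F, (aeval (sg p F) h) v ≠ 0 := by
    by_contra hcon
    push Not at hcon
    have h1 := card_zeros p F h hh0
    have h2 : Nat.card {z : F // (aeval (sg p F) h) z = 0} = Nat.card F := by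
      apply Nat.card_congr
      exact Equiv.subtypeUnivEquiv hcon
    rw [h2, hF] at h1
    have h3 : p ^ h.natDegree < p ^ N := Nat.pow_lt_pow_right hp1 hhdeg
    omega
  set π := aeval (sg p F) h with hπ
  set u := π v with hu
  have hfu : (aeval (sg p F) f) u = 0 := hkill v
  have hne : ∀ l, 0 < l → l < N → u ^ (p ^ l) ≠ u := by
    intro l hl0 hl heq
    have hnd : ¬ f ∣ X ^ l - 1 := by
      intro hd
      have h1 : aeval (g : L) (X ^ l - 1 : (ZMod p)[X]) = 0 :=
        aeval_eq_zero_of_dvd_aeval_eq_zero hd (minpoly.aeval _ _)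
      have h2 : (g : L) ^ l = 1 := by
        simpa [sub_eq_zero] using h1
      have h3 : g ^ l = 1 := by
        ext
        rw [Units.val_pow_eq_pow_val, h2, Units.val_one]
      have h4 := orderOf_dvd_of_pow_eq_one h3
      rw [hog] at h4
      exact absurd (Nat.le_of_dvd hl0 h4) (by omega)
    have hcop : IsCoprime f (X ^ l - 1) := (hirr.coprime_iff_not_dvd).2 hnd
    obtain ⟨a, b, hab⟩ := hcop
    have h5 : (aeval (sg p F) (X ^ l - 1 : (ZMod p)[X])) u = 0 := by
      simp [sg_pow, heq]
    have h6 : (aeval (sg p F) (a * f + b * (X ^ l - 1))) u = 0 := by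
      rw [map_add, map_mul, map_mul, LinearMap.add_apply, Module.End.mul_apply,
        Module.End.mul_apply, hfu, h5, map_zero, map_zero, add_zero]
    rw [hab] at h6
    simp at h6
    exact hv h6
  have hcomm : ∀ z, π (z ^ p) = (π z) ^ p := by
    intro z
    have h1 : aeval (sg p F) (h * X) = aeval (sg p F) (X * h) := by rw [mul_comm]
    have h2 := LinearMap.congr_fun h1 z
    rw [map_mul, map_mul, Module.End.mul_apply, Module.End.mul_apply, aeval_X, sg_apply, sg_apply] at h2
    exact h2
  have hsurj : ∀ i, ∃ z, π z = u ^ (p ^ i) := by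
    intro i
    refine ⟨v ^ (p ^ i), ?_⟩
    induction i with
    | zero => simp [hu]
    | succ i ih => rw [pow_succ, pow_mul, hcomm, ih, ← pow_mul]
  -- counting
  let S : Finset F := insert 0 ((Finset.range N).image fun i => u ^ (p ^ i))
  have hpinj : Function.Injective fun z : F => z ^ p := by
    intro a b hab
    have : CharP F p := charP_of_injective_algebraMap (algebraMap (ZMod p) F).injective p
    exact frobenius_inj F p hab
  have hinj : Set.InjOn (fun i => u ^ (p ^ i)) (Finset.range N : Set ℕ) := by
    have key : ∀ i j, i < j → j < N → u ^ (p ^ i) ≠ u ^ (p ^ j) := by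
      intro i j hij hj heq
      have h1 : ∀ a b : F, a ^ (p ^ i) = b ^ (p ^ i) → a = b := by
        intro a b hab
        clear heq hij
        induction i with
        | zero => simpa using hab
        | succ i ih =>
          rw [pow_succ, pow_mul, pow_mul] at hab
          exact ih (hpinj hab)
      have h2 : j = (j - i) + i := by omega
      rw [h2, pow_add, pow_mul] at heq
      exact hne (j - i) (by omega) (by omega) (h1 _ _ heq).symm
    intro i hi j hj heq
    simp only [Finset.coe_range, Set.mem_Iio] at hi hj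
    rcases lt_trichotomy i j with h1 | h1 | h1
    · exact absurd heq (key i j h1 hj)
    · exact h1
    · exact absurd heq.symm (key j i h1 hi)
  have hu0 : u ≠ 0 := hv
  have hScard : S.card = p ^ w := by
    rw [Finset.card_insert_of_notMem, Finset.card_image_of_injOn hinj, Finset.card_range]
    · omega
    · intro hmem
      rw [Finset.mem_image] at hmem
      obtain ⟨i, -, hi⟩ := hmem
      exact hu0 (pow_eq_zero_iff (pow_pos hp.out.pos i).ne' |>.1 hi)
  let Z : Finset F := Finset.univ.filter fun z => (aeval (sg p F) f) z = 0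
  let R : Finset F := Finset.univ.filter fun z => ∃ y, π y = z
  have hSR : S ⊆ R := by
    intro z hz
    rw [Finset.mem_insert, Finset.mem_image] at hz
    rw [Finset.mem_filter]
    refine ⟨Finset.mem_univ _, ?_⟩
    rcases hz with rfl | ⟨i, -, rfl⟩
    · exact ⟨0, map_zero _⟩
    · exact hsurj i
  have hRZ : R ⊆ Z := by
    intro z hz
    rw [Finset.mem_filter] at hz ⊢
    obtain ⟨-, y, rfl⟩ := hz
    exact ⟨Finset.mem_univ _, hkill y⟩
  have hZcard : Z.card ≤ p ^ w := by
    have h1 := card_zeros p F f hf0
    rw [Nat.card_eq_fintype_card, Fintype.card_subtype] at h1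
    exact h1.trans (Nat.pow_le_pow_right hp.out.pos hfdeg2)
  have hSZ : S = Z := Finset.eq_of_subset_of_card_le (hSR.trans hRZ) (by rw [hScard]; exact hZcard)
  have hSReq : S = R := Finset.Subset.antisymm hSR (by rw [hSZ]; exact hRZ)
  refine ⟨π, u, hu0, hcomm, hsurj, ?_, hne, ?_⟩
  · intro z
    have h1 : π z ∈ S := by
      rw [hSReq, Finset.mem_filter]
      exact ⟨Finset.mem_univ _, z, rfl⟩
    rw [Finset.mem_insert, Finset.mem_image] at h1
    rcases h1 with h1 | ⟨i, hi, h1⟩
    · exact Or.inl h1
    · exact Or.inr ⟨i, Finset.mem_range.1 hi, h1.symm⟩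
  · have h1 : Nat.card (LinearMap.range π) = Fintype.card {z : F // ∃ y, π y = z} := by
      rw [← Nat.card_eq_fintype_card]
      exact Nat.card_congr (Equiv.refl _)
    rw [h1, Fintype.card_subtype, ← hScard, hSReq]

end Pool.Agent.K3h60.SN
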