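import Pool.Agent.K3h60.SN.Frob

/-!
# The multipliers of the kernel of `π`
-/

set_option autoImplicit false

open Finset

namespace Pool.Agent.K3h60.SN

lemma dvd_geom (p w : ℕ) (hp : 2 ≤ p) : (p ^ w - 1) ∣ ∑ i ∈ range (w * (p - 1)), p ^ i := by
  obtain ⟨q, rfl⟩ : ∃ q, p = q + 1 := ⟨p - 1, by omega⟩
  have hq : 0 < q := by omega
  rw [Nat.add_sub_cancel]
  set a := (q + 1) ^ w with ha
  have ha1 : 1 ≤ a := Nat.one_le_pow _ _ (by omega)
  have h1 : (∑ i ∈ range (w * q), (q + 1) ^ i) * q + 1 = a ^ q := by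
    have := Nat.geomSum_eq (m := q + 1) (by omega) (w * q)
    have h2 : (q + 1) ^ (w * q) = a ^ q := by rw [ha, ← pow_mul]
    rw [← h2]
    have h3 : ((∑ i ∈ range (w * q), (q + 1) ^ i : ℕ) : ℤ) * (q : ℤ) + 1 = ((q : ℤ) + 1) ^ (w * q) := by
      have h4 := geom_sum_mul ((q : ℤ) + 1) (w * q)
      push_cast
      have h5 : ((q : ℤ) + 1 - 1) = q := by ring
      rw [h5] at h4
      rw [h4]; ring
    exact_mod_cast h3
  have h2 : (∑ i ∈ range q, a ^ i) * (a - 1) + 1 = a ^ q := by
    have h3 : ((∑ i ∈ range q, a ^ i : ℕ) : ℤ) * ((a : ℤ) - 1) + 1 = (a : ℤ) ^ q := by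
      have h4 := geom_sum_mul (a : ℤ) q
      push_cast
      rw [h4]; ring
    have h5 : ((a - 1 : ℕ) : ℤ) = (a : ℤ) - 1 := by push_cast [ha1]; ring
    rw [← h5] at h3
    exact_mod_cast h3
  have h3 : q ∣ ∑ i ∈ range q, a ^ i := by
    have h4 : a ≡ 1 [MOD q] := by
      have : q + 1 ≡ 1 [MOD q] := by simp [Nat.ModEq]
      simpa using this.pow w
    have h5 : (∑ i ∈ range q, a ^ i) ≡ 0 [MOD q] := by
      calc (∑ i ∈ range q, a ^ i) ≡ ∑ i ∈ range q, 1 [MOD q] := by
            apply Nat.ModEq.sum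
            intro i _
            simpa using h4.pow i
        _ ≡ 0 [MOD q] := by simp [Nat.ModEq]
    exact (Nat.modEq_zero_iff_dvd).1 h5
  obtain ⟨e, he⟩ := h3
  refine ⟨e, ?_⟩
  have h6 : (∑ i ∈ range (w * q), (q + 1) ^ i) * q = ((a - 1) * e) * q := by
    have : (∑ i ∈ range (w * q), (q + 1) ^ i) * q = (∑ i ∈ range q, a ^ i) * (a - 1) := by omega
    rw [this, he]; ring
  exact Nat.eq_of_mul_eq_mul_right hq h6

lemma w_mul_lt (p w : ℕ) (hp : 2 ≤ p) (hw : 2 ≤ w) : w * (p - 1) < p ^ w - 1 := by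
  obtain ⟨q, rfl⟩ : ∃ q, p = q + 1 := ⟨p - 1, by omega⟩
  rw [Nat.add_sub_cancel]
  have key : w * q + 1 < (q + 1) ^ w := by
    induction w, hw using Nat.le_induction with
    | base => nlinarith
    | succ w hw ih =>
      rw [pow_succ]
      have h1 : (w * q + 1) * (q + 1) < (q + 1) ^ w * (q + 1) :=
        Nat.mul_lt_mul_of_pos_right ih (Nat.succ_pos q)
      have h2 : (w + 1) * q + 1 ≤ (w * q + 1) * (q + 1) := by
        nlinarith [Nat.zero_le (w * q * q)]
      omega
  omega

variable (p : ℕ) [hp : Fact p.Prime]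

theorem stab_small (w : ℕ) (hw : 2 ≤ w) (F : Type) [Field F] [Finite F] [Algebra (ZMod p) F]
    (π : F →ₗ[ZMod p] F) (u : F) (hu : u ≠ 0) (hcomm : ∀ z, π (z ^ p) = (π z) ^ p)
    (hsurj : ∀ i, ∃ z, π z = u ^ (p ^ i))
    (hne : ∀ i, 0 < i → i < p ^ w - 1 → u ^ (p ^ i) ≠ u)
    (hcard : Nat.card (LinearMap.range π) = p ^ w) :
    Nat.card {t : F // ∀ z, π z = 0 → π (t * z) = 0} < p ^ w := by
  classical
  by_contra hcon
  push Not at hcon
  let S : Subfield F :=
    { carrier := {t : F | ∀ z, π z = 0 → π (t * z) = 0}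
      mul_mem' := by
        intro a b ha hb z hz
        rw [mul_assoc]
        exact ha _ (hb _ hz)
      one_mem' := by
        intro z hz
        rwa [one_mul]
      add_mem' := by
        intro a b ha hb z hz
        rw [add_mul, map_add, ha z hz, hb z hz, add_zero]
      zero_mem' := by
        intro z _
        rw [zero_mul, map_zero]
      neg_mem' := by
        intro a ha z hz
        rw [neg_mul, map_neg, ha z hz, neg_zero]
      inv_mem' := by
        intro t ht z hz
        by_cases h0 : t = 0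
        · rw [h0, inv_zero, zero_mul, map_zero]
        · have hinj : Function.Injective (fun y : LinearMap.ker π => (⟨t * y.1, ht _ y.2⟩ : LinearMap.ker π)) := by
            intro a b hab
            have h1 : t * a.1 = t * b.1 := congrArg Subtype.val hab
            exact Subtype.ext (mul_left_cancel₀ h0 h1)
          obtain ⟨y, hy⟩ := Finite.surjective_of_injective hinj ⟨z, hz⟩
          have h1 : t * y.1 = z := congrArg Subtype.val hy
          have h2 : t⁻¹ * z = y.1 := by rw [← h1, inv_mul_cancel_left₀ h0]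
          rw [h2]
          exact y.2 }
  have hScard : p ^ w ≤ Nat.card S := hcon
  obtain ⟨z0, hz0⟩ := hsurj 0
  rw [pow_zero, pow_one] at hz0
  let φ : S → LinearMap.range π := fun t => ⟨π (t.1 * z0), ⟨_, rfl⟩⟩
  have hφ : Function.Injective φ := by
    intro a b hab
    have h1 : π (a.1 * z0) = π (b.1 * z0) := congrArg Subtype.val hab
    by_contra hne'
    have h2 : (a - b : S) ≠ 0 := sub_ne_zero.2 hne'
    have h3 : ((a - b : S) : F) ≠ 0 := fun h => h2 (Subtype.ext h)
    have h4 : π (((a - b : S) : F) * z0) = 0 := by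
      have : ((a - b : S) : F) * z0 = a.1 * z0 - b.1 * z0 := by push_cast; ring
      rw [this, map_sub, h1, sub_self]
    have h5 := ((a - b : S)⁻¹).2 _ h4
    have h6 : ((a - b : S)⁻¹ : S).1 * (((a - b : S) : F) * z0) = z0 := by
      rw [← mul_assoc]
      have : ((a - b : S)⁻¹ : S).1 * ((a - b : S) : F) = 1 := by
        rw [Subfield.coe_inv, inv_mul_cancel₀ h3]
      rw [this, one_mul]
    rw [h6, hz0] at h5
    exact hu h5
  have hle := Nat.card_le_card_of_injective φ hφ
  rw [hcard] at hle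
  have hSc : Nat.card S = p ^ w := le_antisymm hle hScard
  have hbij : Function.Bijective φ := (Nat.bijective_iff_injective_and_card φ).2 ⟨hφ, by rw [hSc, hcard]⟩
  obtain ⟨z1, hz1⟩ := hsurj 1
  rw [pow_one] at hz1
  obtain ⟨ζ, hζ⟩ := hbij.2 ⟨u ^ p, z1, hz1⟩
  have hζ1 : π (ζ.1 * z0) = u ^ p := congrArg Subtype.val hζ
  have hζ0 : ζ ≠ 0 := by
    rintro rfl
    rw [ZeroMemClass.coe_zero, zero_mul, map_zero] at hζ1
    exact hu (pow_eq_zero_iff (hp.out.ne_zero) |>.1 hζ1.symm)
  have hkey : ∀ s : S, π (s.1 * z0 ^ p) = π (s.1 * (ζ.1 * z0)) := by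
    intro s
    have h1 : π (z0 ^ p - ζ.1 * z0) = 0 := by
      rw [map_sub, hcomm, hz0, hζ1, sub_self]
    have h2 := s.2 _ h1
    rw [mul_sub, map_sub, sub_eq_zero] at h2
    exact h2
  have hind : ∀ j : ℕ, π (((ζ ^ (∑ i ∈ range j, p ^ i) : S) : F) * z0) = u ^ (p ^ j) := by
    intro j
    induction j with
    | zero => simp [hz0]
    | succ j ih =>
      have h1 : ∑ i ∈ range (j + 1), p ^ i = p * (∑ i ∈ range j, p ^ i) + 1 := by
        rw [Finset.sum_range_succ', Finset.mul_sum, pow_zero]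
        congr 1
        exact Finset.sum_congr rfl fun i _ => by rw [pow_succ]; ring
      have h2 : u ^ (p ^ (j + 1)) = π (((ζ ^ (p * ∑ i ∈ range j, p ^ i) : S) : F) * z0 ^ p) := by
        rw [pow_succ, pow_mul, ← ih, ← hcomm]
        congr 1
        push_cast
        ring
      rw [h2, hkey, h1]
      congr 1
      push_cast
      ring
  have hlt := w_mul_lt p w hp.out.two_le hw
  have hpos : 0 < w * (p - 1) := Nat.mul_pos (by omega) (by have := hp.out.two_le; omega)
  apply hne _ hpos hlt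
  rw [← hind]
  obtain ⟨e, he⟩ := dvd_geom p w hp.out.two_le
  have := Fintype.ofFinite S
  have h1 : ζ ^ (p ^ w - 1) = 1 := by
    rw [← hSc, Nat.card_eq_fintype_card]
    exact FiniteField.pow_card_sub_one_eq_one ζ hζ0
  rw [he, pow_mul, h1, one_pow, OneMemClass.coe_one, one_mul, hz0]

end Pool.Agent.K3h60.SN
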