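import Pool.Agent.K3h60.SN.Net
import Pool.Agent.K3h60.SN.Stab

/-!
# The non-classical symmetric nets
-/

set_option autoImplicit false

open Matrix

namespace Pool.Agent.K3h60.SN

section general

variable {F W : Type} [Field F] [AddCommGroup W] {d : ℕ} {ρ : F →+ W}

lemma exists_linEquiv (x y : Fin d → F) (hx : x ≠ 0) (hy : y ≠ 0) :
    ∃ M : (Fin d → F) ≃ₗ[F] (Fin d → F), M x = y := by
  obtain ⟨a, hax, hay⟩ : ∃ a : Fin d → F, a ⬝ᵥ x ≠ 0 ∧ a ⬝ᵥ y ≠ 0 := by
    obtain ⟨a1, h1⟩ := dot_surj x hx 1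
    obtain ⟨a2, h2⟩ := dot_surj y hy 1
    rw [dotProduct_comm] at h1 h2
    by_cases c1 : a1 ⬝ᵥ y = 0
    · by_cases c2 : a2 ⬝ᵥ x = 0
      · refine ⟨a1 + a2, ?_, ?_⟩
        · rw [add_dotProduct, h1, c2, add_zero]; exact one_ne_zero
        · rw [add_dotProduct, h2, c1, zero_add]; exact one_ne_zero
      · exact ⟨a2, c2, by rw [h2]; exact one_ne_zero⟩
    · exact ⟨a1, by rw [h1]; exact one_ne_zero, c1⟩
  let c := (a ⬝ᵥ x)⁻¹
  let f : (Fin d → F) →ₗ[F] (Fin d → F) :=
    { toFun := fun v => v + (c * (a ⬝ᵥ v)) • (y - x)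
      map_add' := by
        intro u v
        rw [dotProduct_add, mul_add, add_smul]
        abel
      map_smul' := by
        intro r v
        rw [dotProduct_smul, RingHom.id_apply, smul_add, smul_smul, smul_eq_mul]
        congr 2
        ring }
  have hf : Function.Injective f := by
    rw [← LinearMap.ker_eq_bot, LinearMap.ker_eq_bot']
    intro v hv
    have h1 : v + (c * (a ⬝ᵥ v)) • (y - x) = 0 := hv
    have h2 : a ⬝ᵥ v + (c * (a ⬝ᵥ v)) * (a ⬝ᵥ y - a ⬝ᵥ x) = 0 := by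
      have := congrArg (fun t => a ⬝ᵥ t) h1
      simpa [dotProduct_add, dotProduct_smul, dotProduct_sub] using this
    have h3 : c * (a ⬝ᵥ x) = 1 := inv_mul_cancel₀ hax
    have h4 : (a ⬝ᵥ v) * (c * (a ⬝ᵥ y)) = 0 := by linear_combination h2 + (a ⬝ᵥ v) * h3
    have h5 : c * (a ⬝ᵥ y) ≠ 0 := mul_ne_zero (inv_ne_zero hax) hay
    have h6 : a ⬝ᵥ v = 0 := (mul_eq_zero.1 h4).resolve_right h5
    rw [h6, mul_zero, zero_smul, add_zero] at h1
    exact h1
  refine ⟨LinearEquiv.ofInjectiveEndo f hf, ?_⟩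
  rw [LinearEquiv.coe_ofInjectiveEndo]
  change x + (c * (a ⬝ᵥ x)) • (y - x) = y
  have h3 : c * (a ⬝ᵥ x) = 1 := inv_mul_cancel₀ hax
  rw [h3, one_smul]
  abel

lemma joined_iff (hρ : Function.Surjective ρ) (v v' : (Fin d → F) × W) :
    (∃ b, Inc ρ v b ∧ Inc ρ v' b) ↔ (v = v' ∨ v.1 ≠ v'.1) := by
  constructor
  · rintro ⟨b, h1, h2⟩
    by_cases h : v.1 = v'.1
    · left
      refine Prod.ext h ?_
      have h3 : v.2 = ρ (b.1 ⬝ᵥ v.1) + b.2 := h1
      have h4 : v'.2 = ρ (b.1 ⬝ᵥ v'.1) + b.2 := h2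
      rw [h3, h4, h]
    · exact Or.inr h
  · rintro (h | h)
    · subst h
      exact ⟨(0, v.2), by simp [Inc], by simp [Inc]⟩
    · have hne : v.1 - v'.1 ≠ 0 := sub_ne_zero.2 h
      obtain ⟨z, hz⟩ := hρ (v.2 - v'.2)
      obtain ⟨m, hm⟩ := dot_surj (v.1 - v'.1) hne z
      rw [dotProduct_comm] at hm
      refine ⟨(m, v.2 - ρ (m ⬝ᵥ v.1)), ?_, ?_⟩
      · change v.2 = ρ (m ⬝ᵥ v.1) + (v.2 - ρ (m ⬝ᵥ v.1))
        abel
      · change v'.2 = ρ (m ⬝ᵥ v'.1) + (v.2 - ρ (m ⬝ᵥ v.1))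
        have h1 : ρ (m ⬝ᵥ v.1) - ρ (m ⬝ᵥ v'.1) = v.2 - v'.2 := by
          rw [← map_sub, ← dotProduct_sub, hm, hz]
        have h2 : ρ (m ⬝ᵥ v.1) = v.2 - v'.2 + ρ (m ⬝ᵥ v'.1) := by rw [← h1]; abel
        rw [h2]; abel

/-- every ordered pair of joined points can be mapped to a standard pair -/
lemma joined_std (hρ : Function.Surjective ρ) (i0 : Fin d) (v v' : (Fin d → F) × W)
    (h : v.1 ≠ v'.1) : ∃ g ∈ autGroup (Inc (d := d) ρ), g v = (0, 0) ∧
      g v' = (Pi.single i0 1, 0) := by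
  have hx : v'.1 + -v.1 ≠ 0 := by
    rw [← sub_eq_add_neg]; exact sub_ne_zero.2 h.symm
  have he : (Pi.single i0 1 : Fin d → F) ≠ 0 := by
    intro h0
    have := congrFun h0 i0
    simp at this
  obtain ⟨M, hM⟩ := exists_linEquiv (v'.1 + -v.1) (Pi.single i0 1) hx he
  obtain ⟨z, hz⟩ := hρ (-(v'.2 + -v.2))
  obtain ⟨a, ha⟩ := dot_surj (v'.1 + -v.1) hx z
  rw [dotProduct_comm] at ha
  refine ⟨linE M * (shear ρ a * trans (-v.1) (-v.2)),
    mul_mem (linE_mem M) (mul_mem (shear_mem a) (trans_mem _ _)), ?_, ?_⟩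
  · change (M (v.1 + -v.1), v.2 + -v.2 + ρ (a ⬝ᵥ (v.1 + -v.1))) = _
    rw [add_neg_cancel, map_zero, dotProduct_zero, map_zero, add_neg_cancel, add_zero]
  · change (M (v'.1 + -v.1), v'.2 + -v.2 + ρ (a ⬝ᵥ (v'.1 + -v.1))) = _
    rw [hM, ha, hz, add_neg_cancel]

/-- semilinear maps -/
def semi (s : F ≃+* F) (t : W ≃+ W) : Equiv.Perm ((Fin d → F) × W) where
  toFun v := (fun i => s (v.1 i), t v.2)
  invFun v := (fun i => s.symm (v.1 i), t.symm v.2)
  left_inv v := by simp
  right_inv v := by simp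

lemma semi_mem (s : F ≃+* F) (t : W ≃+ W) (hst : ∀ z, ρ (s z) = t (ρ z)) :
    (semi s t : Equiv.Perm ((Fin d → F) × W)) ∈ autGroup (Inc (d := d) ρ) := by
  have h : ∀ (s : F ≃+* F) (t : W ≃+ W), (∀ z, ρ (s z) = t (ρ z)) → ∀ b, ∃ b',
      ∀ v : (Fin d → F) × W, Inc ρ v b ↔ Inc ρ (fun i => s (v.1 i), t v.2) b' := by
    intro s t hst b
    refine ⟨(fun i => s (b.1 i), t b.2), fun v => ?_⟩
    change v.2 = ρ (b.1 ⬝ᵥ v.1) + b.2 ↔ t v.2 = ρ ((fun i => s (b.1 i)) ⬝ᵥ fun i => s (v.1 i)) + t b.2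
    have h1 : (fun i => s (b.1 i)) ⬝ᵥ (fun i => s (v.1 i)) = s (b.1 ⬝ᵥ v.1) := by
      simp [dotProduct, map_sum]
    rw [h1, hst, ← map_add]
    exact (t.injective.eq_iff).symm
  refine ⟨h s t hst, ?_⟩
  intro b
  have h2 : ∀ z, ρ (s.symm z) = t.symm (ρ z) := by
    intro z
    rw [AddEquiv.eq_symm_apply, ← hst, RingEquiv.apply_symm_apply]
  exact h s.symm t.symm h2 b

/-- the line through two standard points -/
lemma line_std [Nontrivial W] (hρ : Function.Surjective ρ) (i0 : Fin d) (v : (Fin d → F) × W)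
    (h : ∀ b, Inc ρ (0, 0) b → Inc ρ (Pi.single i0 1, 0) b → Inc ρ v b) :
    v.1 = Pi.single i0 (v.1 i0) ∧ v.2 = 0 ∧ ∀ z, ρ z = 0 → ρ (v.1 i0 * z) = 0 := by
  have key : ∀ m : Fin d → F, ρ (m i0) = 0 → v.2 = ρ (m ⬝ᵥ v.1) := by
    intro m hm
    have h1 := h (m, 0) (by simp [Inc]) (by simp [Inc, hm])
    simpa [Inc] using h1
  have h2 : v.2 = 0 := by simpa using key 0 (by simp)
  have h3 : ∀ z, ρ z = 0 → ρ (v.1 i0 * z) = 0 := by
    intro z hz
    have h4 := key (Pi.single i0 z) (by simpa using hz)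
    rw [h2, single_dotProduct] at h4
    rw [mul_comm]
    exact h4.symm
  refine ⟨?_, h2, h3⟩
  ext i
  by_cases hi : i = i0
  · subst hi; simp
  · rw [Pi.single_eq_of_ne hi]
    by_contra hne
    obtain ⟨w, hw⟩ := exists_ne (0 : W)
    obtain ⟨z, hz⟩ := hρ w
    have h4 := key (Pi.single i (z * (v.1 i)⁻¹)) (by rw [Pi.single_eq_of_ne (Ne.symm hi)]; exact map_zero ρ)
    rw [h2, single_dotProduct, inv_mul_cancel_right₀ hne, hz] at h4
    exact hw h4.symm

end general

lemma card_affine {K : Type} [Field K] [Finite K] {d : ℕ} (H : AffineSubspace K (Fin d → K))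
    (hne : (H : Set (Fin d → K)).Nonempty) : Nat.card H = Nat.card K ^ Module.finrank K H.direction := by
  obtain ⟨x, hx⟩ := hne
  have h1 : Nat.card H = Nat.card H.direction := by
    apply Nat.card_congr
    refine ⟨fun y => ⟨y.1 - x, AffineSubspace.vsub_mem_direction y.2 hx⟩,
      fun v => ⟨v.1 + x, AffineSubspace.vadd_mem_of_mem_direction v.2 hx⟩, fun y => ?_, fun v => ?_⟩
    · ext; simp
    · ext; simp
  rw [h1]
  exact Module.natCard_eq_pow_finrank (K := K)

theorem main (p : ℕ) [hp : Fact p.Prime] (w : ℕ) (hw : 2 ≤ w) (d : ℕ) (hd : 1 ≤ d) :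
    ∃ (V B : Type) (I : V → B → Prop),
      IsSymmetricNet I (p ^ w) (p ^ ((p ^ w - 1) * d - w)) ∧ ¬ IsClassical I ∧
      ∃ G : Subgroup (Equiv.Perm V), (∀ g ∈ G, MapsBlocks I g) ∧
        (∀ x y x' y', Joined I x y → Joined I x' y' → ∃ g ∈ G, g x = x' ∧ g y = y') ∧
        (∀ x y x' y', NonJoined I x y → NonJoined I x' y' → ∃ g ∈ G, g x = x' ∧ g y = y') := by
  have hp2 := hp.out.two_le
  have hlt := w_mul_lt p w hp2 hw
  have hpw : w < p ^ w - 1 := by
    have : w * 1 ≤ w * (p - 1) := Nat.mul_le_mul_left _ (by omega)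
    omega
  let F := GaloisField p (p ^ w - 1)
  have hF : Nat.card F = p ^ (p ^ w - 1) := GaloisField.card p _ (by omega)
  have hfin : Finite F := Nat.finite_of_card_ne_zero (by rw [hF]; positivity)
  obtain ⟨π, u, hu, hcomm, hsurj, hval, hne, hcard⟩ := exists_pi p w hw F hF
  have hstab := stab_small p w hw F π u hu hcomm hsurj hne hcard
  let W := LinearMap.range π
  let ρ : F →+ W := π.rangeRestrict.toAddMonoidHom
  have hρ : Function.Surjective ρ := π.surjective_rangeRestrict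
  have hρ0 : ∀ z, ρ z = 0 ↔ π z = 0 := fun z => Subtype.ext_iff
  have hμ : p ^ w * p ^ ((p ^ w - 1) * d - w) = Nat.card F ^ d := by
    rw [hF, ← pow_add, ← pow_mul]
    congr 1
    have : (p ^ w - 1) * 1 ≤ (p ^ w - 1) * d := Nat.mul_le_mul_left _ hd
    omega
  have hnet := symmetricNet (d := d) hρ (p ^ w) (p ^ ((p ^ w - 1) * d - w)) hcard hμ
  let i0 : Fin d := ⟨0, hd⟩
  have hWnt : Nontrivial W := by
    rw [← Finite.one_lt_card_iff_nontrivial, hcard]
    exact Nat.one_lt_pow (by omega) hp.out.one_lt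
  refine ⟨_, _, Inc (d := d) ρ, hnet, ?_, autGroup (Inc (d := d) ρ), fun g hg => hg.1, ?_, ?_⟩
  · -- not classical
    rintro ⟨K, _, _, d', L, e, hd', hL, hcl, -⟩
    obtain ⟨H, ⟨hHne, hHd, -⟩, hH⟩ := hcl (0, 0)
    have c1 : Nat.card K ^ d' = (p ^ w) ^ 2 * p ^ ((p ^ w - 1) * d - w) := by
      rw [← hnet.1.card_points, Nat.card_congr e, Nat.card_fun, Nat.card_eq_fintype_card (α := Fin d'),
        Fintype.card_fin]
    have c2 : Nat.card K ^ (Module.finrank K H.direction) = p ^ w * p ^ ((p ^ w - 1) * d - w) := by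
      rw [← card_affine H hHne, ← hnet.1.card_block (0, 0)]
      apply Nat.card_congr
      exact ⟨fun y => ⟨e.symm y.1, (hH _).2 (by rw [Equiv.apply_symm_apply]; exact y.2)⟩,
        fun v => ⟨e v.1, (hH _).1 v.2⟩, fun y => by ext; simp, fun v => by ext <;> simp⟩
    have c3 : Nat.card K = p ^ w := by
      have h1 : Nat.card K ^ d' = Nat.card K * Nat.card K ^ (Module.finrank K H.direction) := by
        rw [← pow_succ', hHd]
      rw [c1, c2] at h1
      have h2 : 0 < p ^ w * p ^ ((p ^ w - 1) * d - w) := by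
        have := hp.out.pos
        positivity
      apply Nat.eq_of_mul_eq_mul_right h2
      rw [← h1]; ring
    have hle : Nat.card K ≤ Nat.card {t : F // ∀ z, π z = 0 → π (t * z) = 0} := by
      have hexy : e ((0 : Fin d → F), (0 : W)) ≠ e ((Pi.single i0 1 : Fin d → F), (0 : W)) := by
        intro h
        have h1 := congrArg Prod.fst (e.injective h)
        have h2 := congrFun h1 i0
        simp at h2
      have hmem : ∀ τ : K, ∀ b, Inc ρ ((0 : Fin d → F), (0 : W)) b →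
          Inc ρ ((Pi.single i0 1 : Fin d → F), (0 : W)) b →
          Inc ρ (e.symm (AffineMap.lineMap (e (0, 0)) (e (Pi.single i0 1, 0)) τ)) b := by
        intro τ b h1 h2
        obtain ⟨H', -, hH'⟩ := hcl b
        rw [hH', Equiv.apply_symm_apply]
        exact AffineMap.lineMap_mem τ ((hH' _).1 h1) ((hH' _).1 h2)
      have hstd := fun τ => line_std hρ i0 _ (hmem τ)
      have hinj : Function.Injective (fun τ : K =>
          (⟨(e.symm (AffineMap.lineMap (e (0, 0)) (e (Pi.single i0 1, 0)) τ)).1 i0,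
            fun z hz => (hρ0 _).1 ((hstd τ).2.2 z ((hρ0 z).2 hz))⟩ :
            {t : F // ∀ z, π z = 0 → π (t * z) = 0})) := by
        intro τ τ' h
        have h1 := congrArg Subtype.val h
        simp only at h1
        have h2 : e.symm (AffineMap.lineMap (e (0, 0)) (e (Pi.single i0 1, 0)) τ) =
            e.symm (AffineMap.lineMap (e (0, 0)) (e (Pi.single i0 1, 0)) τ') := by
          refine Prod.ext ?_ ?_
          · rw [(hstd τ).1, (hstd τ').1, h1]
          · rw [(hstd τ).2.1, (hstd τ').2.1]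
        exact AffineMap.lineMap_injective K hexy (e.symm.injective h2)
      exact Nat.card_le_card_of_injective _ hinj
    rw [c3] at hle
    omega
  · -- joined pairs
    intro x y x' y' h h'
    have h1 : x.1 ≠ y.1 := ((joined_iff hρ x y).1 h.2).resolve_left h.1
    have h2 : x'.1 ≠ y'.1 := ((joined_iff hρ x' y').1 h'.2).resolve_left h'.1
    obtain ⟨g, hg, hg1, hg2⟩ := joined_std hρ i0 x y h1
    obtain ⟨k, hk, hk1, hk2⟩ := joined_std hρ i0 x' y' h2
    refine ⟨k⁻¹ * g, mul_mem (inv_mem hk) hg, ?_, ?_⟩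
    · rw [Equiv.Perm.mul_apply, hg1, Equiv.Perm.inv_eq_iff_eq, hk1]
    · rw [Equiv.Perm.mul_apply, hg2, Equiv.Perm.inv_eq_iff_eq, hk2]
  · -- non-joined pairs
    have hchar : CharP F p := charP_of_injective_algebraMap (algebraMap (ZMod p) F).injective p
    have hexp : ExpChar F p := ExpChar.prime hp.out
    let s : F ≃+* F := frobeniusEquiv F p
    have hs : ∀ z, s z = z ^ p := fun z => frobeniusEquiv_apply F p z
    let t0 : W →+ W :=
      { toFun := fun y => ⟨y.1 ^ p, by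
          obtain ⟨z, hz⟩ := y.2
          exact ⟨z ^ p, by rw [hcomm, hz]⟩⟩
        map_zero' := Subtype.ext (by simp [hp.out.ne_zero])
        map_add' := fun a b => Subtype.ext (by
          change (a.1 + b.1) ^ p = a.1 ^ p + b.1 ^ p
          exact (frobenius F p).map_add a.1 b.1) }
    have ht0 : Function.Injective t0 := by
      intro a b hab
      have h1 : a.1 ^ p = b.1 ^ p := congrArg Subtype.val hab
      exact Subtype.ext (frobenius_inj F p h1)
    let t : W ≃+ W := AddEquiv.ofBijective t0 (Finite.injective_iff_bijective.1 ht0)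
    have hst : ∀ z, ρ (s z) = t (ρ z) := by
      intro z
      apply Subtype.ext
      change π (s z) = (π z) ^ p
      rw [hs, hcomm]
    let S : Equiv.Perm ((Fin d → F) × W) := semi s t
    have hS : S ∈ autGroup (Inc (d := d) ρ) := semi_mem s t hst
    have huW : u ∈ LinearMap.range π := by
      obtain ⟨z, hz⟩ := hsurj 0
      exact ⟨z, by simpa using hz⟩
    have hSi : ∀ i : ℕ, (S ^ i) (0, 0) = (0, 0) ∧
        ∃ h : u ^ (p ^ i) ∈ LinearMap.range π, (S ^ i) (0, ⟨u, huW⟩) = (0, ⟨u ^ (p ^ i), h⟩) := by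
      intro i
      induction i with
      | zero =>
        refine ⟨rfl, ?_⟩
        have h : u ^ (p ^ 0) ∈ LinearMap.range π := by rw [pow_zero, pow_one]; exact huW
        refine ⟨h, ?_⟩
        rw [pow_zero, Equiv.Perm.one_apply]
        refine Prod.ext rfl (Subtype.ext ?_)
        change u = u ^ (p ^ 0)
        rw [pow_zero, pow_one]
      | succ i ih =>
        obtain ⟨ih1, hm, ih2⟩ := ih
        constructor
        · rw [pow_succ', Equiv.Perm.mul_apply, ih1]
          refine Prod.ext (funext fun j => ?_) ?_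
          · change s 0 = 0; exact map_zero s
          · change t 0 = 0; exact map_zero t
        · have h : u ^ (p ^ (i + 1)) ∈ LinearMap.range π := hsurj (i + 1)
          refine ⟨h, ?_⟩
          rw [pow_succ', Equiv.Perm.mul_apply, ih2]
          refine Prod.ext (funext fun j => ?_) (Subtype.ext ?_)
          · change s 0 = 0; exact map_zero s
          · change (u ^ (p ^ i)) ^ p = u ^ (p ^ (i + 1))
            rw [← pow_mul, ← pow_succ]
    have hstd : ∀ x y : (Fin d → F) × W, NonJoined (Inc ρ) x y →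
        ∃ g ∈ autGroup (Inc (d := d) ρ), g x = (0, 0) ∧ g y = (0, ⟨u, huW⟩) := by
      intro x y hxy
      have h1 : x.1 = y.1 := by
        by_contra hcon
        exact hxy.2 ((joined_iff hρ x y).2 (Or.inr hcon))
      have h2 : y.2 + -x.2 ≠ 0 := by
        intro h0
        apply hxy.1
        rw [← sub_eq_add_neg, sub_eq_zero] at h0
        exact Prod.ext h1 h0.symm
      obtain ⟨z, hz⟩ := (y.2 + -x.2).2
      rcases hval z with h3 | ⟨i, -, h3⟩
      · exact absurd (Subtype.ext (by rw [← hz, h3]; rfl)) h2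
      · obtain ⟨hi1, hm, hi2⟩ := hSi i
        refine ⟨(S ^ i)⁻¹ * trans (-x.1) (-x.2), mul_mem (inv_mem (pow_mem hS i)) (trans_mem _ _), ?_, ?_⟩
        · rw [Equiv.Perm.mul_apply]
          have h4 : (trans (-x.1) (-x.2)) x = ((0 : Fin d → F), (0 : W)) := by
            change (x.1 + -x.1, x.2 + -x.2) = _
            rw [add_neg_cancel, add_neg_cancel]
          rw [h4, Equiv.Perm.inv_eq_iff_eq, hi1]
        · rw [Equiv.Perm.mul_apply]
          have h4 : (trans (-x.1) (-x.2)) y = ((0 : Fin d → F), (⟨u ^ (p ^ i), hm⟩ : W)) := by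
            change (y.1 + -x.1, y.2 + -x.2) = _
            rw [← h1, add_neg_cancel]
            refine Prod.ext rfl (Subtype.ext ?_)
            change (y.2 + -x.2 : W).1 = u ^ (p ^ i)
            rw [← hz, h3]
          rw [h4, Equiv.Perm.inv_eq_iff_eq, hi2]
    intro x y x' y' h h'
    obtain ⟨g, hg, hg1, hg2⟩ := hstd x y h
    obtain ⟨k, hk, hk1, hk2⟩ := hstd x' y' h'
    refine ⟨k⁻¹ * g, mul_mem (inv_mem hk) hg, ?_, ?_⟩
    · rw [Equiv.Perm.mul_apply, hg1, Equiv.Perm.inv_eq_iff_eq, hk1]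
    · rw [Equiv.Perm.mul_apply, hg2, Equiv.Perm.inv_eq_iff_eq, hk2]

end Pool.Agent.K3h60.SN
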