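import Pool.Agent.K3h60.SN.Defs
import Mathlib

/-!
# Bilinear symmetric nets
-/

set_option autoImplicit false

open Matrix

namespace Pool.Agent.K3h60.SN

section net

variable {F W : Type} [Field F] [AddCommGroup W] {d : ℕ} (ρ : F →+ W)

/-- the incidence relation `y = ρ (m ⬝ x) + b` -/
def Inc (v b : (Fin d → F) × W) : Prop := v.2 = ρ (b.1 ⬝ᵥ v.1) + b.2

lemma card_fiber {A B : Type} [AddCommGroup A] [AddCommGroup B] [Finite A] (f : A →+ B)
    (hf : Function.Surjective f) (b : B) : Nat.card {a : A // f a = b} * Nat.card B = Nat.card A := by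
  have : Finite B := Finite.of_surjective f hf
  obtain ⟨a0, ha0⟩ := hf b
  have h1 : Nat.card {a : A // f a = b} = Nat.card f.ker := by
    apply Nat.card_congr
    refine ⟨fun a => ⟨a.1 - a0, by rw [AddMonoidHom.mem_ker, map_sub, a.2, ha0, sub_self]⟩,
      fun k => ⟨k.1 + a0, by rw [map_add, k.2, zero_add, ha0]⟩, fun a => ?_, fun k => ?_⟩
    · ext; simp
    · ext; simp
  have h2 : Nat.card B = Nat.card (A ⧸ f.ker) :=
    Nat.card_congr (QuotientAddGroup.quotientKerEquivOfSurjective f hf).toEquiv.symm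
  rw [h1, h2, mul_comm]
  exact (AddSubgroup.card_eq_card_quotient_mul_card_addSubgroup f.ker).symm

/-- the additive map `x ↦ ρ (m ⬝ x)` -/
def dotHom (m : Fin d → F) : (Fin d → F) →+ W where
  toFun x := ρ (m ⬝ᵥ x)
  map_zero' := by simp
  map_add' x y := by rw [dotProduct_add, map_add]

lemma dot_surj (m : Fin d → F) (hm : m ≠ 0) (z : F) : ∃ x : Fin d → F, m ⬝ᵥ x = z := by
  obtain ⟨i, hi⟩ : ∃ i, m i ≠ 0 := by
    by_contra h
    push Not at h
    exact hm (funext h)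
  refine ⟨Pi.single i ((m i)⁻¹ * z), ?_⟩
  rw [dotProduct_single, mul_inv_cancel_left₀ hi]

variable {ρ}

lemma dotHom_surj (hρ : Function.Surjective ρ) (m : Fin d → F) (hm : m ≠ 0) :
    Function.Surjective (dotHom ρ m) := by
  intro w
  obtain ⟨z, hz⟩ := hρ w
  obtain ⟨x, hx⟩ := dot_surj m hm z
  exact ⟨x, by change ρ (m ⬝ᵥ x) = w; rw [hx, hz]⟩

theorem net [Finite F] [Finite W] (hρ : Function.Surjective ρ) (s μ : ℕ) (hs : Nat.card W = s)
    (hμ : s * μ = Nat.card F ^ d) : IsNet (Inc (d := d) ρ) s (s * μ) μ := by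
  have hV : Nat.card (Fin d → F) = s * μ := by
    rw [hμ, Nat.card_fun, Nat.card_eq_fintype_card (α := Fin d), Fintype.card_fin]
  refine ⟨inferInstance, inferInstance, ?_, ?_, ?_⟩
  · rw [Nat.card_prod, hV, hs]; ring
  · intro b
    rw [← hV]
    apply Nat.card_congr
    exact ⟨fun v => v.1.1, fun x => ⟨(x, ρ (b.1 ⬝ᵥ x) + b.2), rfl⟩,
      fun v => Subtype.ext (Prod.ext rfl v.2.symm), fun x => rfl⟩
  · let e : (Fin d → F) ≃ Fin (s * μ) := (Finite.equivFin _).trans (finCongr hV)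
    refine ⟨fun b => e b.1, ?_, ?_⟩
    · intro i v
      refine ⟨(e.symm i, v.2 - ρ (e.symm i ⬝ᵥ v.1)), ⟨by simp, ?_⟩, ?_⟩
      · change v.2 = ρ (e.symm i ⬝ᵥ v.1) + (v.2 - ρ (e.symm i ⬝ᵥ v.1))
        abel
      · rintro ⟨m, c⟩ ⟨h1, h2⟩
        have h3 : m = e.symm i := by rw [← h1, Equiv.symm_apply_apply]
        subst h3
        have h4 : v.2 = ρ (e.symm i ⬝ᵥ v.1) + c := h2
        rw [h4]
        refine Prod.ext rfl ?_
        change c = ρ (e.symm i ⬝ᵥ v.1) + c - ρ (e.symm i ⬝ᵥ v.1)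
        abel
    · intro b b' hb
      have hm : b.1 - b'.1 ≠ 0 := fun h => hb (congrArg e (sub_eq_zero.1 h))
      have h1 := card_fiber (dotHom ρ (b.1 - b'.1)) (dotHom_surj hρ _ hm) (b'.2 - b.2)
      have h2 : Nat.card {v // Inc ρ v b ∧ Inc ρ v b'} =
          Nat.card {x : Fin d → F // dotHom ρ (b.1 - b'.1) x = b'.2 - b.2} := by
        apply Nat.card_congr
        have key : ∀ x : Fin d → F, dotHom ρ (b.1 - b'.1) x = ρ (b.1 ⬝ᵥ x) - ρ (b'.1 ⬝ᵥ x) := by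
          intro x
          change ρ ((b.1 - b'.1) ⬝ᵥ x) = _
          rw [sub_dotProduct, map_sub]
        refine ⟨fun v => ⟨v.1.1, ?_⟩, fun x => ⟨(x.1, ρ (b.1 ⬝ᵥ x.1) + b.2), rfl, ?_⟩, ?_, ?_⟩
        · have h3 : v.1.2 = ρ (b.1 ⬝ᵥ v.1.1) + b.2 := v.2.1
          have h4 : v.1.2 = ρ (b'.1 ⬝ᵥ v.1.1) + b'.2 := v.2.2
          rw [h3] at h4
          rw [key, sub_eq_sub_iff_add_eq_add, h4]
          abel
        · have h3 := x.2
          rw [key, sub_eq_sub_iff_add_eq_add] at h3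
          change ρ (b.1 ⬝ᵥ x.1) + b.2 = ρ (b'.1 ⬝ᵥ x.1) + b'.2
          rw [h3]
          abel
        · intro v
          exact Subtype.ext (Prod.ext rfl v.2.1.symm)
        · intro x; rfl
      rw [h2]
      rw [hs, hV] at h1
      have hs0 : 0 < s := by
        rw [← hs]; exact Nat.card_pos
      rw [mul_comm] at h1
      exact Nat.eq_of_mul_eq_mul_left hs0 h1

lemma IsNet.reindex {V B B' : Type} {I : V → B → Prop} {s r μ : ℕ} (h : IsNet I s r μ) (e : B' ≃ B) :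
    IsNet (fun v b' => I v (e b')) s r μ := by
  obtain ⟨c, hc1, hc2⟩ := h.parallel
  have := h.finite_blocks
  refine ⟨h.finite_points, Finite.of_equiv B e.symm, h.card_points, fun b => h.card_block (e b), ?_⟩
  refine ⟨fun b => c (e b), ?_, fun b b' hb => hc2 _ _ hb⟩
  intro i v
  obtain ⟨b, hb1, hb2⟩ := hc1 i v
  refine ⟨e.symm b, by simpa using hb1, ?_⟩
  intro b' hb'
  rw [Equiv.eq_symm_apply]
  exact hb2 _ hb'

theorem symmetricNet [Finite F] [Finite W] (hρ : Function.Surjective ρ) (s μ : ℕ)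
    (hs : Nat.card W = s) (hμ : s * μ = Nat.card F ^ d) : IsSymmetricNet (Inc (d := d) ρ) s μ := by
  refine ⟨net hρ s μ hs hμ, ?_⟩
  have h1 := (net (d := d) hρ s μ hs hμ).reindex
    (⟨fun v => (-v.1, v.2), fun v => (-v.1, v.2), fun v => by simp, fun v => by simp⟩ :
      ((Fin d → F) × W) ≃ ((Fin d → F) × W))
  have h2 : (fun (b v : (Fin d → F) × W) => Inc ρ v b) = fun (v b' : (Fin d → F) × W) =>
      Inc ρ v ((⟨fun v => (-v.1, v.2), fun v => (-v.1, v.2), fun v => by simp, fun v => by simp⟩ :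
        ((Fin d → F) × W) ≃ ((Fin d → F) × W)) b') := by
    funext b v
    apply propext
    change v.2 = ρ (b.1 ⬝ᵥ v.1) + b.2 ↔ b.2 = ρ (-v.1 ⬝ᵥ b.1) + v.2
    rw [neg_dotProduct, map_neg, dotProduct_comm v.1 b.1]
    constructor
    · intro h; rw [h]; abel
    · intro h; rw [h]; abel
  rw [h2]
  exact h1

end net

/-- the full automorphism group -/
def autGroup {V B : Type} (I : V → B → Prop) : Subgroup (Equiv.Perm V) where
  carrier := {g | MapsBlocks I g ∧ MapsBlocks I g⁻¹}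
  one_mem' := ⟨fun b => ⟨b, fun v => Iff.rfl⟩, fun b => ⟨b, fun v => by simp⟩⟩
  mul_mem' := by
    rintro g h ⟨hg1, hg2⟩ ⟨hh1, hh2⟩
    constructor
    · intro b
      obtain ⟨b1, hb1⟩ := hh1 b
      obtain ⟨b2, hb2⟩ := hg1 b1
      exact ⟨b2, fun v => (hb1 v).trans (hb2 (h v))⟩
    · intro b
      obtain ⟨b1, hb1⟩ := hg2 b
      obtain ⟨b2, hb2⟩ := hh2 b1
      refine ⟨b2, fun v => (hb1 v).trans ?_⟩
      rw [_root_.mul_inv_rev]
      exact hb2 _
  inv_mem' := by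
    rintro g ⟨hg1, hg2⟩
    exact ⟨hg2, by rw [inv_inv]; exact hg1⟩

section aut

variable {F W : Type} [Field F] [AddCommGroup W] {d : ℕ} {ρ : F →+ W}

/-- translation -/
def trans (a : Fin d → F) (c : W) : Equiv.Perm ((Fin d → F) × W) where
  toFun v := (v.1 + a, v.2 + c)
  invFun v := (v.1 - a, v.2 - c)
  left_inv v := by simp
  right_inv v := by simp

lemma trans_mem (a : Fin d → F) (c : W) : trans a c ∈ autGroup (Inc ρ) := by
  have h : ∀ (a : Fin d → F) (c : W), ∀ b, ∃ b', ∀ v : (Fin d → F) × W,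
      Inc ρ v b ↔ Inc ρ (v.1 + a, v.2 + c) b' := by
    intro a c b
    refine ⟨(b.1, b.2 + c - ρ (b.1 ⬝ᵥ a)), fun v => ?_⟩
    change v.2 = ρ (b.1 ⬝ᵥ v.1) + b.2 ↔ v.2 + c = ρ (b.1 ⬝ᵥ (v.1 + a)) + (b.2 + c - ρ (b.1 ⬝ᵥ a))
    rw [dotProduct_add, map_add]
    constructor
    · intro h; rw [h]; abel
    · intro h
      apply add_right_cancel (b := c)
      rw [h]; abel
  refine ⟨h a c, ?_⟩
  intro b
  obtain ⟨b', hb'⟩ := h (-a) (-c) b
  refine ⟨b', fun v => (hb' v).trans ?_⟩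
  have : (trans a c)⁻¹ v = (v.1 + -a, v.2 + -c) := by
    change (v.1 - a, v.2 - c) = _
    rw [sub_eq_add_neg, sub_eq_add_neg]
  rw [this]

/-- shear -/
def shear (ρ : F →+ W) (a : Fin d → F) : Equiv.Perm ((Fin d → F) × W) where
  toFun v := (v.1, v.2 + ρ (a ⬝ᵥ v.1))
  invFun v := (v.1, v.2 - ρ (a ⬝ᵥ v.1))
  left_inv v := by simp
  right_inv v := by simp

lemma shear_mem (a : Fin d → F) : shear ρ a ∈ autGroup (Inc ρ) := by
  have h : ∀ (a : Fin d → F), ∀ b, ∃ b', ∀ v : (Fin d → F) × W,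
      Inc ρ v b ↔ Inc ρ (v.1, v.2 + ρ (a ⬝ᵥ v.1)) b' := by
    intro a b
    refine ⟨(b.1 + a, b.2), fun v => ?_⟩
    change v.2 = ρ (b.1 ⬝ᵥ v.1) + b.2 ↔ v.2 + ρ (a ⬝ᵥ v.1) = ρ ((b.1 + a) ⬝ᵥ v.1) + b.2
    rw [add_dotProduct, map_add]
    constructor
    · intro h; rw [h]; abel
    · intro h
      apply add_right_cancel (b := ρ (a ⬝ᵥ v.1))
      rw [h]; abel
  refine ⟨h a, ?_⟩
  intro b
  obtain ⟨b', hb'⟩ := h (-a) b
  refine ⟨b', fun v => (hb' v).trans ?_⟩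
  have : (shear ρ a)⁻¹ v = (v.1, v.2 + ρ (-a ⬝ᵥ v.1)) := by
    change (v.1, v.2 - ρ (a ⬝ᵥ v.1)) = _
    rw [neg_dotProduct, map_neg, sub_eq_add_neg]
  rw [this]

/-- linear maps -/
def linE (M : (Fin d → F) ≃ₗ[F] (Fin d → F)) : Equiv.Perm ((Fin d → F) × W) where
  toFun v := (M v.1, v.2)
  invFun v := (M.symm v.1, v.2)
  left_inv v := by simp
  right_inv v := by simp

lemma exists_dual (φ : (Fin d → F) →ₗ[F] F) : ∃ m : Fin d → F, ∀ x, φ x = m ⬝ᵥ x := by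
  refine ⟨fun i => φ (Pi.single i 1), fun x => ?_⟩
  conv_lhs => rw [← Finset.univ_sum_single x]
  rw [map_sum, dotProduct]
  refine Finset.sum_congr rfl fun i _ => ?_
  have : Pi.single i (x i) = x i • (Pi.single i 1 : Fin d → F) := by
    rw [← Pi.single_smul, smul_eq_mul, mul_one]
  rw [this, map_smul, smul_eq_mul, mul_comm]

lemma linE_mem (M : (Fin d → F) ≃ₗ[F] (Fin d → F)) : linE M ∈ autGroup (Inc ρ) := by
  have h : ∀ (M : (Fin d → F) ≃ₗ[F] (Fin d → F)), ∀ b, ∃ b', ∀ v : (Fin d → F) × W,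
      Inc ρ v b ↔ Inc ρ (M v.1, v.2) b' := by
    intro M b
    obtain ⟨m, hm⟩ := exists_dual ((dotProductBilin F F b.1).comp M.symm.toLinearMap)
    refine ⟨(m, b.2), fun v => ?_⟩
    change v.2 = ρ (b.1 ⬝ᵥ v.1) + b.2 ↔ v.2 = ρ (m ⬝ᵥ M v.1) + b.2
    rw [← hm]
    simp
  refine ⟨h M, ?_⟩
  intro b
  exact h M.symm b

end aut

end Pool.Agent.K3h60.SN
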